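import Mathlib

set_option autoImplicit false

namespace Pool.Agent.MP_57a8b6_nt.Translate

/-- Local step: a unit `g` with `g * n = T`. -/
theorem exists_mul_sub (g T M : ℤ) (h : IsCoprime g M) : ∃ n : ℤ, M ∣ g * n - T := by
  obtain ⟨u, v, huv⟩ := h
  exact ⟨u * T, -(v * T), by linear_combination T * huv⟩

theorem root_of_unit (M S r X : ℤ) (hg : IsCoprime (X + r) M)
    (hX : M ∣ X ^ 2 - r ^ 2 - S ^ 2) : ∃ n : ℤ, M ∣ S * (n ^ 2 - 1) + 2 * r * n := by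
  obtain ⟨n, j, hj⟩ := exists_mul_sub (X + r) S M hg
  obtain ⟨i, hi⟩ := hX
  refine ⟨n, ?_⟩
  have h2 : IsCoprime M ((X + r) ^ 2) := (IsCoprime.pow_left hg).symm
  apply h2.dvd_of_dvd_mul_left
  have hn : (X + r) * n = S + M * j := by linarith
  refine ⟨S * (2 * S * j + M * j ^ 2) + 2 * r * (X + r) * j - S * i, ?_⟩
  have e : (X + r) ^ 2 * (S * (n ^ 2 - 1) + 2 * r * n)
      = S * (((X + r) * n) ^ 2 - (X + r) ^ 2) + 2 * r * (X + r) * ((X + r) * n) := by ring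
  rw [e, hn]
  linear_combination (-S) * hi

theorem root_of_unit_two (M S' r g : ℤ) (hg : IsCoprime g M)
    (hX : M ∣ (2 * g - r) ^ 2 - r ^ 2 - (4 * S') ^ 2) :
    ∃ n : ℤ, M ∣ (4 * S') * (n ^ 2 - 1) + 2 * r * n := by
  obtain ⟨n, j, hj⟩ := exists_mul_sub g (2 * S') M hg
  obtain ⟨i, hi⟩ := hX
  refine ⟨n, ?_⟩
  have h2 : IsCoprime M (g ^ 2) := (IsCoprime.pow_left hg).symm
  apply h2.dvd_of_dvd_mul_left
  have hn : g * n = 2 * S' + M * j := by linarith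
  refine ⟨4 * S' * (4 * S' * j + M * j ^ 2) + 2 * r * g * j - S' * i, ?_⟩
  have e : g ^ 2 * ((4 * S') * (n ^ 2 - 1) + 2 * r * n)
      = 4 * S' * ((g * n) ^ 2 - g ^ 2) + 2 * r * g * (g * n) := by ring
  rw [e, hn]
  linear_combination (-S') * hi

theorem root_prime_pow (p e : ℕ) (hp : p.Prime) (he : 0 < e) (S r X : ℤ)
    (hr : IsCoprime r ((p ^ e : ℕ) : ℤ)) (hX : ((p ^ e : ℕ) : ℤ) ∣ X ^ 2 - r ^ 2 - S ^ 2)
    (h2 : (2 : ℤ) ∣ ((p ^ e : ℕ) : ℤ) → (4 : ℤ) ∣ S) :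
    ∃ n : ℤ, ((p ^ e : ℕ) : ℤ) ∣ S * (n ^ 2 - 1) + 2 * r * n := by
  have hpz : Prime (p : ℤ) := Nat.prime_iff_prime_int.mp hp
  have hpM : (p : ℤ) ∣ ((p ^ e : ℕ) : ℤ) := by
    push_cast
    exact dvd_pow_self _ he.ne'
  have hpr : ¬ (p : ℤ) ∣ r := fun h =>
    hpz.not_isUnit (hr.isUnit_of_dvd' h hpM)
  have cop : ∀ g : ℤ, ¬ (p : ℤ) ∣ g → IsCoprime g ((p ^ e : ℕ) : ℤ) := fun g hg => by
    push_cast
    exact IsCoprime.pow_right ((Prime.coprime_iff_not_dvd hpz).mpr hg).symm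
  by_cases hp2 : p = 2
  · subst hp2
    have hM2 : (2 : ℤ) ∣ ((2 ^ e : ℕ) : ℤ) := by simpa using hpM
    obtain ⟨S', rfl⟩ := h2 hM2
    have hr2 : r % 2 = 1 := by
      have : ¬ (2 : ℤ) ∣ r := by simpa using hpr
      omega
    have hX2 : X % 2 = 1 := by
      have h3 : (2 : ℤ) ∣ X ^ 2 - r ^ 2 - (4 * S') ^ 2 := dvd_trans hM2 hX
      by_contra hc
      have hX0 : X % 2 = 0 := by omega
      obtain ⟨x, hx⟩ : ∃ x, X = 2 * x := ⟨X / 2, by omega⟩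
      obtain ⟨y, hy⟩ : ∃ y, r = 2 * y + 1 := ⟨r / 2, by omega⟩
      obtain ⟨z, hz⟩ := h3
      rw [hx, hy] at hz
      have : 2 * (2 * x ^ 2 - 2 * y ^ 2 - 2 * y - 8 * S' ^ 2 - z) = 1 := by linarith
      omega
    by_cases h4 : (X + r) % 4 = 2
    · obtain ⟨g, hg⟩ : ∃ g, X + r = 2 * g := ⟨(X + r) / 2, by omega⟩
      have hgo : ¬ ((2 : ℕ) : ℤ) ∣ g := by push_cast; omega
      refine root_of_unit_two _ S' r g (cop g hgo) ?_
      have : 2 * g - r = X := by linarith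
      rw [this]; exact hX
    · obtain ⟨g, hg⟩ : ∃ g, -X + r = 2 * g := ⟨(-X + r) / 2, by omega⟩
      have hgo : ¬ ((2 : ℕ) : ℤ) ∣ g := by push_cast; omega
      refine root_of_unit_two _ S' r g (cop g hgo) ?_
      have : 2 * g - r = -X := by linarith
      rw [this, neg_sq]; exact hX
  · have hp2' : ¬ (p : ℤ) ∣ 2 := by
      intro h
      have h' : p ∣ 2 := by exact_mod_cast h
      exact hp2 ((Nat.prime_dvd_prime_iff_eq hp Nat.prime_two).mp h')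
    by_cases h1 : (p : ℤ) ∣ X + r
    · have h3 : ¬ (p : ℤ) ∣ -X + r := by
        intro h3
        have h4 : (p : ℤ) ∣ 2 * r := by
          have := dvd_add h1 h3
          have e : X + r + (-X + r) = 2 * r := by ring
          rwa [e] at this
        rcases hpz.dvd_or_dvd h4 with h | h
        · exact hp2' h
        · exact hpr h
      refine root_of_unit _ S r (-X) (cop _ h3) ?_
      rw [neg_sq]; exact hX
    · exact root_of_unit _ S r X (cop _ h1) hX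

theorem root_nat (S r X : ℤ) (M : ℕ) : M ≠ 0 → IsCoprime r (M : ℤ) →
    (M : ℤ) ∣ X ^ 2 - r ^ 2 - S ^ 2 → ((2 : ℤ) ∣ (M : ℤ) → (4 : ℤ) ∣ S) →
    ∃ n : ℤ, (M : ℤ) ∣ S * (n ^ 2 - 1) + 2 * r * n := by
  induction M using Nat.recOnPosPrimePosCoprime with
  | prime_pow p e hp he => exact fun _ hr hX h2 => root_prime_pow p e hp he S r X hr hX h2
  | zero => exact fun h => absurd rfl h
  | one => exact fun _ _ _ _ => ⟨0, by simp⟩
  | coprime m k hm hk hmk ihm ihk =>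
    intro _ hr hX h2
    push_cast at hr hX h2 ⊢
    obtain ⟨n1, hn1⟩ := ihm (by omega) hr.of_mul_right_left (dvd_trans (dvd_mul_right _ _) hX)
      (fun h => h2 (dvd_trans h (dvd_mul_right _ _)))
    obtain ⟨n2, hn2⟩ := ihk (by omega) hr.of_mul_right_right (dvd_trans (dvd_mul_left _ _) hX)
      (fun h => h2 (dvd_trans h (dvd_mul_left _ _)))
    have hc : IsCoprime (m : ℤ) (k : ℤ) := Nat.isCoprime_iff_coprime.mpr hmk
    obtain ⟨u, v, huv⟩ := hc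
    refine ⟨n1 * v * k + n2 * u * m, ?_⟩
    apply IsCoprime.mul_dvd ⟨u, v, huv⟩
    · have e : n1 * v * k + n2 * u * m = n1 + m * ((n2 - n1) * u) := by
        linear_combination n1 * huv
      rw [e]
      have e2 : S * ((n1 + m * ((n2 - n1) * u)) ^ 2 - 1) + 2 * r * (n1 + m * ((n2 - n1) * u))
          = (S * (n1 ^ 2 - 1) + 2 * r * n1) + m * (((n2 - n1) * u) *
            (S * (2 * n1 + m * ((n2 - n1) * u)) + 2 * r)) := by ring
      rw [e2]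
      exact dvd_add hn1 (dvd_mul_right _ _)
    · have e : n1 * v * k + n2 * u * m = n2 + k * ((n1 - n2) * v) := by
        linear_combination n2 * huv
      rw [e]
      have e2 : S * ((n2 + k * ((n1 - n2) * v)) ^ 2 - 1) + 2 * r * (n2 + k * ((n1 - n2) * v))
          = (S * (n2 ^ 2 - 1) + 2 * r * n2) + k * (((n1 - n2) * v) *
            (S * (2 * n2 + k * ((n1 - n2) * v)) + 2 * r)) := by ring
      rw [e2]
      exact dvd_add hn2 (dvd_mul_right _ _)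

/-- If `a * b` is even and `a ^ 2 + b ^ 2 + 1` is a square modulo `a * b`, then `4 ∣ a + b`. -/
theorem four_dvd (a b r X : ℤ) (hr : a * b + 1 = r ^ 2)
    (hX : a * b ∣ X ^ 2 - (a ^ 2 + b ^ 2 + 1)) (h2 : (2 : ℤ) ∣ a * b) : (4 : ℤ) ∣ a + b := by
  have hr2 : r % 2 = 1 := by
    by_contra hc
    obtain ⟨y, hy⟩ : ∃ y, r = 2 * y := ⟨r / 2, by omega⟩
    obtain ⟨z, hz⟩ := h2
    rw [hz, hy] at hr
    have : 2 * (2 * y ^ 2 - z) = 1 := by linarith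
    omega
  obtain ⟨y, hy⟩ : ∃ y, r = 2 * y + 1 := ⟨r / 2, by omega⟩
  obtain ⟨q, hq⟩ : ∃ q, y * (y + 1) = 2 * q := by
    obtain ⟨q, hq⟩ := Int.even_mul_succ_self y
    exact ⟨q, by linarith⟩
  have h8 : a * b = 8 * q := by rw [hy] at hr; linarith
  obtain ⟨j, hj⟩ := hX
  have key : X ^ 2 = (a + b) ^ 2 + 1 + 8 * (q * j - 2 * q) := by
    have : a * b * j = 8 * q * j := by rw [h8]
    linarith
  generalize a + b = S at key ⊢
  generalize q * j - 2 * q = z at key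
  obtain ⟨S1, S0, hS, h0, h1⟩ : ∃ S1 S0, S = 4 * S1 + S0 ∧ 0 ≤ S0 ∧ S0 < 4 :=
    ⟨S / 4, S % 4, by omega, by omega, by omega⟩
  obtain ⟨X1, X0, hX', g0, g1⟩ : ∃ X1 X0, X = 4 * X1 + X0 ∧ 0 ≤ X0 ∧ X0 < 4 :=
    ⟨X / 4, X % 4, by omega, by omega, by omega⟩
  subst hS hX'
  have k2 : X0 ^ 2 = S0 ^ 2 + 1 + 8 * (z + 2 * S1 ^ 2 + S1 * S0 - 2 * X1 ^ 2 - X1 * X0) := by
    linear_combination key
  generalize z + 2 * S1 ^ 2 + S1 * S0 - 2 * X1 ^ 2 - X1 * X0 = m at k2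
  interval_cases S0 <;> interval_cases X0 <;> omega

theorem root (a b r X : ℤ) (ha : 0 < a) (hb : 0 < b) (hr : a * b + 1 = r ^ 2)
    (hX : a * b ∣ X ^ 2 - (a ^ 2 + b ^ 2 + 1)) :
    ∃ n : ℤ, a * b ∣ (a + b) * (n ^ 2 - 1) + 2 * r * n := by
  have hab : 0 < a * b := mul_pos ha hb
  have hM : (((a * b).toNat : ℕ) : ℤ) = a * b := Int.toNat_of_nonneg hab.le
  have := root_nat (a + b) r X (a * b).toNat (by omega)
  rw [hM] at this
  refine this ⟨r, -1, by linarith⟩ ?_ (four_dvd a b r X hr hX)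
  obtain ⟨j, hj⟩ := hX
  exact ⟨j - 3, by linear_combination hj + hr⟩

/-- The regular chain `c ↦ d₊` starting from `c = 0`, with its residues modulo `a * b`. -/
theorem chain (a b r : ℤ) (ha : 0 < a) (hb : 0 < b) (hr0 : 0 < r) (hr : a * b + 1 = r ^ 2)
    (n : ℕ) : ∃ c s t : ℤ, (n : ℤ) ≤ c ∧ 0 < s ∧ 0 < t ∧ a * c + 1 = s ^ 2 ∧ b * c + 1 = t ^ 2 ∧
      a * b ∣ s * t - 1 - n * r * (a + b) ∧ a * b ∣ c - (a + b) * n ^ 2 - 2 * r * n := by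
  induction n with
  | zero => exact ⟨0, 1, 1, by simp, by simp, by simp, by simp, by simp, by simp, by simp⟩
  | succ n ih =>
    obtain ⟨c, s, t, hn, hs, ht, h1, h2, ⟨i, hi⟩, ⟨j, hj⟩⟩ := ih
    have hc : 0 ≤ c := le_trans (Int.natCast_nonneg n) hn
    refine ⟨a + b + c + 2 * a * b * c + 2 * r * s * t, r * s + a * t, b * s + r * t, ?_,
      by positivity, by positivity, ?_, ?_, ⟨i + 2 * r * c + 2 * s * t, ?_⟩,
      ⟨j + 2 * c + 2 * r * i + 2 * n * (a + b), ?_⟩⟩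
    · push_cast
      have : 0 ≤ 2 * a * b * c := by positivity
      have : 0 ≤ 2 * r * s * t := by positivity
      linarith
    · linear_combination s ^ 2 * hr + (a * b + 1) * h1 + a ^ 2 * h2
    · linear_combination t ^ 2 * hr + (a * b + 1) * h2 + b ^ 2 * h1
    · push_cast
      linear_combination hi - r * b * h1 - r * a * h2 - s * t * hr
    · push_cast
      linear_combination hj + 2 * r * hi - 2 * n * (a + b) * hr

/-- The translated point is none of `d₊`, `d₋`. -/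
theorem not_d (a b c r s t x : ℤ) (ha : 0 < a) (hb : 0 < b) (hr0 : 0 < r) (hs : 0 < s)
    (ht : 0 < t) (hx : 0 < x) (hr : a * b + 1 = r ^ 2) (h1 : a * c + 1 = s ^ 2)
    (h2 : b * c + 1 = t ^ 2) (hc : c = a + b + a * b * x) :
    x ≠ a + b + c + 2 * a * b * c + 2 * r * s * t ∧
      x ≠ a + b + c + 2 * a * b * c - 2 * r * s * t := by
  have hab : 0 < a * b := mul_pos ha hb
  have habx : 0 < a * b * x := mul_pos hab hx
  have hxc : x ≤ a * b * x := by nlinarith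
  have hc0 : 0 < c := by linarith
  have habc : 0 < a * b * c := mul_pos hab hc0
  have hrst : 0 < r * s * t := by positivity
  refine ⟨fun h => by nlinarith, fun h => ?_⟩
  have id1 : (a + b + c + 2 * a * b * c - 2 * r * s * t) *
      (a + b + c + 2 * a * b * c + 2 * r * s * t) = (c - a - b) ^ 2 - 4 * r ^ 2 := by
    have e : (r * s * t) ^ 2 = (a * b + 1) * (a * c + 1) * (b * c + 1) := by
      rw [hr, h1, h2]; ring
    linear_combination (-4) * e - 4 * hr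
  rw [← h] at id1
  have e2 : c - a - b = a * b * x := by linarith
  rw [e2] at id1
  have h3 : a * b * (a * b * x) ≤ a * b * c := by
    apply mul_le_mul_of_nonneg_left _ hab.le
    linarith
  have h4 : a * b * (a * b * x) ≤ a + b + c + 2 * a * b * c + 2 * r * s * t := by nlinarith
  have h5 : x * (a * b * (a * b * x)) ≤ x * (a + b + c + 2 * a * b * c + 2 * r * s * t) :=
    mul_le_mul_of_nonneg_left h4 hx.le
  have h6 : 0 < r ^ 2 := by positivity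
  nlinarith

theorem sufficient (a b r X : ℤ) (ha : 0 < a) (hb : 0 < b) (hr0 : 0 < r)
    (hr : a * b + 1 = r ^ 2) (hX : a * b ∣ X ^ 2 - (a ^ 2 + b ^ 2 + 1)) (N : ℤ) :
    ∃ c s t x : ℤ, N < c ∧ 0 < s ∧ 0 < t ∧ a * c + 1 = s ^ 2 ∧ b * c + 1 = t ^ 2 ∧
      c = a + b + a * b * x ∧ 0 < x := by
  obtain ⟨n0, i, hi⟩ := root a b r X ha hb hr hX
  have hab : 0 < a * b := mul_pos ha hb
  set J : ℤ := |n0| + |N| + a + b + 1 with hJ
  have hJ0 : 0 < J := by positivity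
  have hJ1 : J ≤ a * b * J := by nlinarith
  have hn0 := neg_abs_le n0
  have hN := le_abs_self N
  have hN0 := abs_nonneg N
  have hpos : 0 ≤ n0 + a * b * J := by linarith
  obtain ⟨c, s, t, hn, hs, ht, h1, h2, -, ⟨j, hj⟩⟩ :=
    chain a b r ha hb hr0 hr (n0 + a * b * J).toNat
  rw [Int.toNat_of_nonneg hpos] at hn hj
  have hc : c = a + b + a * b * (j + i + J * ((a + b) * (2 * n0 + a * b * J) + 2 * r)) := by
    linear_combination hj + hi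
  refine ⟨c, s, t, _, by linarith, hs, ht, h1, h2, hc, ?_⟩
  by_contra hneg
  have : a * b * (j + i + J * ((a + b) * (2 * n0 + a * b * J) + 2 * r)) ≤ 0 :=
    mul_nonpos_of_nonneg_of_nonpos hab.le (not_lt.mp hneg)
  linarith

theorem necessary (a b c s t x : ℤ) (h1 : a * c + 1 = s ^ 2) (h2 : b * c + 1 = t ^ 2)
    (hc : c = a + b + a * b * x) : a * b ∣ (s * t) ^ 2 - (a ^ 2 + b ^ 2 + 1) := by
  have e : (s * t) ^ 2 = (a * c + 1) * (b * c + 1) := by rw [h1, h2]; ring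
  rw [e, hc]
  exact ⟨(a + b + a * b * x) ^ 2 + 2 + (a + b) * x, by ring⟩

theorem sq_mul (D m n : ℤ) (h : IsCoprime m n) (h1 : ∃ X : ℤ, m ∣ X ^ 2 - D)
    (h2 : ∃ X : ℤ, n ∣ X ^ 2 - D) : ∃ X : ℤ, m * n ∣ X ^ 2 - D := by
  obtain ⟨X1, i, hi⟩ := h1
  obtain ⟨X2, j, hj⟩ := h2
  obtain ⟨u, v, huv⟩ := h
  refine ⟨X1 * v * n + X2 * u * m, IsCoprime.mul_dvd ⟨u, v, huv⟩ ?_ ?_⟩
  · have e : X1 * v * n + X2 * u * m = X1 + m * ((X2 - X1) * u) := by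
      linear_combination X1 * huv
    rw [e]
    exact ⟨i + (X2 - X1) * u * (2 * X1 + m * ((X2 - X1) * u)), by linear_combination hi⟩
  · have e : X1 * v * n + X2 * u * m = X2 + n * ((X1 - X2) * v) := by
      linear_combination X2 * huv
    rw [e]
    exact ⟨j + (X1 - X2) * v * (2 * X2 + n * ((X1 - X2) * v)), by linear_combination hj⟩

theorem sq_unit (D m p v : ℤ) (h : IsCoprime v m) (h1 : m ∣ p ^ 2 - D * v ^ 2) :
    ∃ X : ℤ, m ∣ X ^ 2 - D := by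
  obtain ⟨n, j, hj⟩ := exists_mul_sub v p m h
  obtain ⟨i, hi⟩ := h1
  refine ⟨n, ?_⟩
  have h2 : IsCoprime m (v ^ 2) := (IsCoprime.pow_left h).symm
  apply h2.dvd_of_dvd_mul_left
  have hn : v * n = p + m * j := by linarith
  refine ⟨i + 2 * p * j + m * j ^ 2, ?_⟩
  have e : v ^ 2 * (n ^ 2 - D) = (v * n) ^ 2 - D * v ^ 2 := by ring
  rw [e, hn]
  linear_combination hi

theorem cop_two (m k : ℤ) (hm : m % 2 = 1) : IsCoprime m (m * k - 2) := by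
  obtain ⟨l, hl⟩ : ∃ l, m = 2 * l + 1 := ⟨m / 2, by omega⟩
  exact ⟨1 - l * k, l, by rw [hl]; ring⟩

/-- The auxiliary odd number `w = u ^ 2 - D`, modulo whose square `D` is a square. -/
theorem aux_w (a T : ℤ) (ha : 0 < a) (hT : 0 < T) : ∃ w : ℤ, T ≤ w ∧ w % 2 = 1 ∧
    IsCoprime a w ∧ IsCoprime (a ^ 2 + 1) w ∧ ∃ X : ℤ, w ^ 2 ∣ X ^ 2 - (a ^ 2 + 1) := by
  obtain ⟨w, hw⟩ : ∃ w, w = (a ^ 2 + 1) * a ^ 2 * T * ((a ^ 2 + 1) * T + 2) - 1 := ⟨_, rfl⟩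
  obtain ⟨q, hq⟩ : ∃ q, a ^ 2 * (a ^ 2 + 1) = 2 * q := by
    obtain ⟨q, hq⟩ := Int.even_mul_succ_self (a ^ 2)
    exact ⟨q, by linarith⟩
  have hw2 : w = 2 * (q * T * ((a ^ 2 + 1) * T + 2)) - 1 := by
    rw [hw]; linear_combination (T * ((a ^ 2 + 1) * T + 2)) * hq
  have c1 : IsCoprime a w :=
    ⟨(a ^ 2 + 1) * a * T * ((a ^ 2 + 1) * T + 2), -1, by rw [hw]; ring⟩
  have c2 : IsCoprime (a ^ 2 + 1) w :=
    ⟨a ^ 2 * T * ((a ^ 2 + 1) * T + 2), -1, by rw [hw]; ring⟩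
  have c3 : IsCoprime (2 : ℤ) w :=
    ⟨q * T * ((a ^ 2 + 1) * T + 2), -1, by rw [hw2]; ring⟩
  have c4 : IsCoprime ((a ^ 2 + 1) * T + 1) w :=
    ⟨1 - T * a ^ 2 * ((a ^ 2 + 1) * T + 1), T, by rw [hw]; ring⟩
  refine ⟨w, ?_, by omega, c1, c2, ?_⟩
  · have h1 : 0 < q := by nlinarith [sq_pos_of_pos ha, sq_nonneg (a ^ 2)]
    have h2 : 1 ≤ (a ^ 2 + 1) * T + 2 := by nlinarith [sq_nonneg a]
    have h3 : T ≤ q * T := by nlinarith
    have h4 : q * T ≤ q * T * ((a ^ 2 + 1) * T + 2) := by nlinarith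
    omega
  · refine sq_unit (a ^ 2 + 1) (w ^ 2) ((a * ((a ^ 2 + 1) * T + 1)) ^ 2 + (a ^ 2 + 1))
      (2 * (a * ((a ^ 2 + 1) * T + 1))) ?_ ⟨1, by rw [hw]; ring⟩
    exact IsCoprime.pow_right (c3.mul_left (c1.mul_left c4))

theorem family_odd (a T : ℤ) (ha : 0 < a) (hT : 1 < T) (hodd : a % 2 = 1) :
    ∃ b r X : ℤ, T ≤ b ∧ 0 < r ∧ a * b + 1 = r ^ 2 ∧ a * b ∣ X ^ 2 - (a ^ 2 + b ^ 2 + 1) := by
  obtain ⟨w, hTw, hw, c1, c2, hsq⟩ := aux_w a T ha (by omega)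
  obtain ⟨l, hl⟩ : ∃ l, a = 2 * l + 1 := ⟨a / 2, by omega⟩
  obtain ⟨E, hE⟩ : ∃ E, E = 2 * (l ^ 2 + l) + 1 := ⟨_, rfl⟩
  have hD : a ^ 2 + 1 = 2 * E := by rw [hl, hE]; ring
  have hEo : E % 2 = 1 := by omega
  have hE0 : 0 < E := by nlinarith [sq_nonneg a]
  have cE : IsCoprime E w := by
    rw [hD] at c2; exact c2.of_mul_left_right
  have caE : IsCoprime a E := ⟨-a, 2, by linarith⟩
  obtain ⟨N, hN⟩ : ∃ N, N = E * a ^ 2 * w ^ 2 - 2 := ⟨_, rfl⟩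
  have n1 : IsCoprime a N := by
    have := cop_two a (E * a * w ^ 2) hodd
    rwa [show a * (E * a * w ^ 2) - 2 = N by rw [hN]; ring] at this
  have n2 : IsCoprime E N := by
    have := cop_two E (a ^ 2 * w ^ 2) hEo
    rwa [show E * (a ^ 2 * w ^ 2) - 2 = N by rw [hN]; ring] at this
  have n3 : IsCoprime w N := by
    have := cop_two w (E * a ^ 2 * w) hw
    rwa [show w * (E * a ^ 2 * w) - 2 = N by rw [hN]; ring] at this
  have s1 : ∃ X : ℤ, a ^ 2 ∣ X ^ 2 - (a ^ 2 + 1) := ⟨1, -1, by ring⟩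
  have s2 : ∃ X : ℤ, E ∣ X ^ 2 - (a ^ 2 + 1) := ⟨0, -2, by rw [hD]; ring⟩
  have s4 : ∃ X : ℤ, N ∣ X ^ 2 - (a ^ 2 + 1) :=
    sq_unit (a ^ 2 + 1) N 2 (a * w) (n1.mul_left n3) ⟨-2, by rw [hD, hN]; ring⟩
  have s12 := sq_mul _ _ _ (IsCoprime.pow_left caE) s1 s2
  have s123 := sq_mul _ _ _
    (IsCoprime.pow_right ((IsCoprime.pow_left c1).mul_left cE)) s12 hsq
  obtain ⟨X, j, hj⟩ := sq_mul _ _ _
    (((IsCoprime.pow_left n1).mul_left n2).mul_left (IsCoprime.pow_left n3)) s123 s4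
  have hw0 : 2 ≤ w := by omega
  have p1 : 1 ≤ E * a := by nlinarith
  have p2 : 1 ≤ E * a ^ 2 := by nlinarith
  have p3 : 4 ≤ w ^ 2 := by nlinarith
  have p4 : w ^ 2 ≤ E * a ^ 2 * w ^ 2 := by nlinarith
  have p5 : w ^ 2 ≤ E * a * w ^ 2 := by nlinarith
  have p6 : w ≤ w ^ 2 := by nlinarith
  refine ⟨E * a * w ^ 2 * N, E * a ^ 2 * w ^ 2 - 1, X, ?_, by linarith, by rw [hN]; ring,
    j - E * w ^ 2 * N, by linear_combination hj⟩
  have p7 : 1 ≤ N := by linarith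
  nlinarith

theorem family_four (a T : ℤ) (ha : 0 < a) (hT : 1 < T) (h4 : a % 4 = 0) :
    ∃ b r X : ℤ, T ≤ b ∧ 0 < r ∧ a * b + 1 = r ^ 2 ∧ a * b ∣ X ^ 2 - (a ^ 2 + b ^ 2 + 1) := by
  obtain ⟨w, hTw, hw, c1, c2, hsq⟩ := aux_w a T ha (by omega)
  obtain ⟨l, hl⟩ : ∃ l, a = 4 * l := ⟨a / 4, by omega⟩
  have hl0 : 0 < l := by omega
  obtain ⟨D, hD⟩ : ∃ D, D = a ^ 2 + 1 := ⟨_, rfl⟩
  rw [← hD] at c2 hsq
  have caD : IsCoprime a D := ⟨-a, 1, by rw [hD]; ring⟩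
  obtain ⟨N, hN⟩ : ∃ N, N = D * (2 * l) ^ 2 * w ^ 2 - 1 := ⟨_, rfl⟩
  have n1 : IsCoprime a N := ⟨D * l * w ^ 2, -1, by rw [hN, hl]; ring⟩
  have n2 : IsCoprime D N := ⟨(2 * l) ^ 2 * w ^ 2, -1, by rw [hN]; ring⟩
  have n3 : IsCoprime w N := ⟨D * (2 * l) ^ 2 * w, -1, by rw [hN]; ring⟩
  have n4 : IsCoprime (2 * l * w) N := ⟨D * (2 * l) * w, -1, by rw [hN]; ring⟩
  have s1 : ∃ X : ℤ, a ^ 2 ∣ X ^ 2 - D := ⟨1, -1, by rw [hD]; ring⟩
  have s2 : ∃ X : ℤ, D ∣ X ^ 2 - D := ⟨0, -1, by ring⟩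
  have s4 : ∃ X : ℤ, N ∣ X ^ 2 - D :=
    sq_unit D N 1 (2 * l * w) n4 ⟨-1, by rw [hN]; ring⟩
  have s12 := sq_mul _ _ _ (IsCoprime.pow_left caD) s1 s2
  have s123 := sq_mul _ _ _
    (IsCoprime.pow_right ((IsCoprime.pow_left c1).mul_left c2)) s12 hsq
  obtain ⟨X, j, hj⟩ := sq_mul _ _ _
    (((IsCoprime.pow_left n1).mul_left n2).mul_left (IsCoprime.pow_left n3)) s123 s4
  have hw0 : 2 ≤ w := by omega
  have hD0 : 1 ≤ D := by nlinarith [sq_nonneg a]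
  have p1 : 1 ≤ a * D := by nlinarith
  have p2 : 1 ≤ D * (2 * l) ^ 2 := by nlinarith
  have p3 : 4 ≤ w ^ 2 := by nlinarith
  have p4 : w ^ 2 ≤ D * (2 * l) ^ 2 * w ^ 2 := by nlinarith
  have p5 : w ^ 2 ≤ a * D * w ^ 2 := by nlinarith
  have p6 : w ≤ w ^ 2 := by nlinarith
  refine ⟨a * D * w ^ 2 * N, 2 * N + 1, X, ?_, by linarith, by rw [hN, hl]; ring,
    j - D * w ^ 2 * N, by linear_combination hj + hD⟩
  have p7 : 1 ≤ N := by linarith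
  nlinarith

theorem family (a T : ℤ) (ha : 0 < a) (h4 : a % 4 ≠ 2) :
    ∃ b r X : ℤ, T < b ∧ 0 < b ∧ 0 < r ∧ a * b + 1 = r ^ 2 ∧
      a * b ∣ X ^ 2 - (a ^ 2 + b ^ 2 + 1) := by
  have h1 : 1 < |T| + 2 := by have := abs_nonneg T; omega
  have h2 : T < |T| + 2 := by have := le_abs_self T; omega
  by_cases h : a % 2 = 1
  · obtain ⟨b, r, X, hb, hr, e1, e2⟩ := family_odd a (|T| + 2) ha h1 h
    exact ⟨b, r, X, by omega, by omega, hr, e1, e2⟩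
  · obtain ⟨b, r, X, hb, hr, e1, e2⟩ := family_four a (|T| + 2) ha h1 (by omega)
    exact ⟨b, r, X, by omega, by omega, hr, e1, e2⟩

theorem not_two_mod_four (a b r X : ℤ) (hr : a * b + 1 = r ^ 2)
    (hX : a * b ∣ X ^ 2 - (a ^ 2 + b ^ 2 + 1)) : a % 4 ≠ 2 := by
  intro h
  obtain ⟨l, hl⟩ : ∃ l, a = 4 * l + 2 := ⟨a / 4, by omega⟩
  have h2 : (2 : ℤ) ∣ a * b := ⟨(2 * l + 1) * b, by rw [hl]; ring⟩
  obtain ⟨m, hm⟩ := four_dvd a b r X hr hX h2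
  have hb : b = 4 * (m - l) - 2 := by linarith
  rw [hl, hb] at hr
  obtain ⟨y, z, hy, h0, h1⟩ : ∃ y z, r = 4 * y + z ∧ 0 ≤ z ∧ z < 4 :=
    ⟨r / 4, r % 4, by omega, by omega, by omega⟩
  subst hy
  have k : z ^ 2 = 5 + 8 * (2 * l * (m - l) - l + (m - l) - 1 - 2 * y ^ 2 - y * z) := by
    linear_combination -hr
  generalize 2 * l * (m - l) - l + (m - l) - 1 - 2 * y ^ 2 - y * z = v at k
  interval_cases z <;> omega

end Pool.Agent.MP_57a8b6_nt.Translate
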